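import Mathlib

set_option autoImplicit false

namespace Pool.Agent.Results.MP_0168d2_co.Counter

/-- A factorial extendable language in which every letter occurs (`L_n` = words of length `n`). -/
structure IsLanguage {A : Type} (L : Set (List A)) : Prop where
  nil_mem : [] ∈ L
  fact_left : ∀ (a : A) (u : List A), a :: u ∈ L → u ∈ L
  fact_right : ∀ (u : List A) (b : A), u ++ [b] ∈ L → u ∈ L
  ext_left : ∀ v ∈ L, ∃ a : A, a :: v ∈ L
  ext_right : ∀ v ∈ L, ∃ b : A, v ++ [b] ∈ L
  letters : ∀ a : A, [a] ∈ L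

def Bispecial {A : Type} (L : Set (List A)) (w : List A) : Prop :=
  w ∈ L ∧ (∃ a a' : A, a ≠ a' ∧ a :: w ∈ L ∧ a' :: w ∈ L) ∧
    (∃ b b' : A, b ≠ b' ∧ w ++ [b] ∈ L ∧ w ++ [b'] ∈ L)

def OrderCondition {A : Type} (L : Set (List A)) (ltA ltD : A → A → Prop) : Prop :=
  ∀ v, Bispecial L v → ∀ x y x' y' : A, x :: (v ++ [y]) ∈ L → x' :: (v ++ [y']) ∈ L →
    x ≠ x' → y ≠ y' → (ltA x x' ↔ ltD y y')

/-- `a < a'` and nothing lies strictly between. -/
def Consecutive {A : Type} (lt : A → A → Prop) (a a' : A) : Prop :=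
  lt a a' ∧ ¬ ∃ c, lt a c ∧ lt c a'

def HasConnection {A : Type} (L : Set (List A)) (ltA ltD : A → A → Prop) (w : List A) : Prop :=
  ∃ a a' b b' : A, Consecutive ltA a a' ∧ Consecutive ltD b b' ∧
    a :: (w ++ [b]) ∈ L ∧ a' :: (w ++ [b']) ∈ L ∧ a :: (w ++ [b']) ∉ L ∧ a' :: (w ++ [b]) ∉ L

def NoConnection {A : Type} (L : Set (List A)) (ltA ltD : A → A → Prop) : Prop :=
  ∀ w, Bispecial L w → ¬ HasConnection L ltA ltD w

/-- Palindromic complexity. -/
noncomputable def PC {A : Type} (L : Set (List A)) (n : ℕ) : ℕ :=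
  {w | w ∈ L ∧ w.length = n ∧ w.reverse = w}.ncard

/-- The allowed two-letter words 03, 02, 12, 22, 32, 31, 30. -/
def E (a b : Fin 4) : Prop := b = 2 ∨ (a = 0 ∧ b = 3) ∨ (a = 3 ∧ b ≠ 3)

instance : DecidableRel E := fun a b => by unfold E; infer_instance

def L0 : Set (List (Fin 4)) := {w | w.IsChain E}

lemma mem_L0 (w : List (Fin 4)) : w ∈ L0 ↔ w.IsChain E := Iff.rfl

lemma lang : IsLanguage L0 where
  nil_mem := List.IsChain.nil
  fact_left := fun a u h => (List.isChain_cons.1 h).2
  fact_right := fun u b h => (List.isChain_append.1 h).1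
  ext_left := by
    intro v hv
    cases v with
    | nil => exact ⟨0, List.isChain_singleton _⟩
    | cons c t =>
      have : ∀ c : Fin 4, ∃ a, E a c := by decide
      obtain ⟨a, ha⟩ := this c
      exact ⟨a, List.isChain_cons_cons.2 ⟨ha, hv⟩⟩
  ext_right := by
    intro v hv
    refine ⟨2, List.isChain_append.2 ⟨hv, List.isChain_singleton _, ?_⟩⟩
    intro x _ y hy
    simp only [List.head?_cons, Option.mem_def, Option.some.injEq] at hy
    exact Or.inl hy.symm
  letters := fun a => List.isChain_singleton _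

lemma after_two (t : List (Fin 4)) : ∀ b : Fin 4, (2 :: (t ++ [b])).IsChain E → b = 2 := by
  induction t with
  | nil =>
    intro b h
    have h1 : E 2 b := (List.isChain_cons_cons.1 h).1
    revert b; decide
  | cons c t ih =>
    intro b h
    have h1 := List.isChain_cons_cons.1 h
    have hc : c = 2 := by
      have := h1.1
      revert this; generalize c = c; revert c; decide
    subst hc
    exact ih b h1.2

lemma bisp (w : List (Fin 4)) (h : Bispecial L0 w) : w = [] := by
  obtain ⟨-, ⟨a, a', hne, ha, ha'⟩, ⟨b, b', hne', hb, hb'⟩⟩ := h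
  cases w with
  | nil => rfl
  | cons c t =>
    exfalso
    have h1 := (List.isChain_cons_cons.1 ha).1
    have h2 := (List.isChain_cons_cons.1 ha').1
    have hc : c = 2 := by
      have : ∀ a a' c : Fin 4, a ≠ a' → E a c → E a' c → c = 2 := by decide
      exact this a a' c hne h1 h2
    subst hc
    exact hne' ((after_two t b hb).trans (after_two t b' hb').symm)

lemma two (x y : Fin 4) : x :: ([] ++ [y]) ∈ L0 ↔ E x y := by
  simp [mem_L0]

lemma pc3 : PC L0 3 = 3 := by
  have : {w | w ∈ L0 ∧ w.length = 3 ∧ w.reverse = w} =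
      (({[3, 0, 3], [0, 3, 0], [2, 2, 2]} : Finset (List (Fin 4))) : Set (List (Fin 4))) := by
    ext w
    constructor
    · rintro ⟨h1, h2, h3⟩
      obtain ⟨a, b, c, rfl⟩ := List.length_eq_three.1 h2
      have hca : c = a := by simpa using (congrArg List.head? h3)
      subst hca
      have h4 : E c b ∧ E b c := by simpa [mem_L0] using h1
      have : ∀ c b : Fin 4, E c b ∧ E b c →
          [c, b, c] ∈ ({[3, 0, 3], [0, 3, 0], [2, 2, 2]} : Finset (List (Fin 4))) := by decide
      exact this c b h4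
    · intro h
      have h' : w = [3, 0, 3] ∨ w = [0, 3, 0] ∨ w = [2, 2, 2] := by simpa using h
      rcases h' with rfl | rfl | rfl <;> exact ⟨by rw [mem_L0]; decide, rfl, rfl⟩
  unfold PC
  rw [this, Set.ncard_coe_finset]
  decide

theorem result :
    ¬ ∀ (A : Type) [Fintype A] [Nonempty A] (L : Set (List A)) (ltA ltD : A → A → Prop),
      IsStrictTotalOrder A ltA → IsStrictTotalOrder A ltD → (∀ a b, ltD a b ↔ ltA b a) →
      IsLanguage L → OrderCondition L ltA ltD → NoConnection L ltA ltD →
      ∀ n : ℕ, PC L n = if Even n then 1 else Fintype.card A := by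
  intro h
  have key := h (Fin 4) L0 (fun a b => a < b) (fun a b => b < a) inferInstance inferInstance
    (fun _ _ => Iff.rfl) lang ?_ ?_ 3
  · rw [pc3] at key
    revert key; decide
  · intro v hv x y x' y' h1 h2
    obtain rfl := bisp v hv
    rw [two] at h1 h2
    revert x y x' y'; decide
  · intro w hw
    obtain rfl := bisp w hw
    rintro ⟨a, a', b, b', h1, h2, h3, h4, h5, h6⟩
    rw [two] at h3 h4 h5 h6
    unfold Consecutive at h1 h2
    revert a a' b b'; decide

end Pool.Agent.Results.MP_0168d2_co.Counter
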